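import Pool.Agent.Lib.Helper86.FlagSphere.Obstruction
import Pool.Agent.Lib.Helper64.FlagSphere.Upper
import Pool.Agent.Lib.Helper4.FlagSphere.Reduction

/-!
# The smallest dimension admitting a transverse `n`-sphere of full flags

For `n ≥ 1` let `d(n)` be the smallest `d ≥ 2` such that `Flag(ℝ^d)` contains a transverse
`n`-sphere. Then `d(1) = 2` and `d(n) = 2 ^ (φ(n) + 1) - 1` for `n ≥ 2`, where `φ(n)` is the number
of `1 ≤ j ≤ n` with `j ≡ 0, 1, 2, 4 (mod 8)`. In particular `d(4) = 15` and `d(8) = 31`.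

* Upper bound: if `J₁, …, J_n` are anticommuting skew complex structures on `ℝ^k`,
  `k = 2 ^ φ(n)`, and `Φ(y) = y₀ + ∑ yᵢ Jᵢ`, then the isotropic flags of `ℝ^k ⊕ ℝ^{k-1}` spanned by
  the vectors `(Φ(y) eᵢ, eᵢ)`, `y ∈ Sⁿ`, form a transverse `n`-sphere.
* Lower bound: a transverse `n`-sphere, `n ≥ 2`, gives a symmetric involution `w` with
  `(-1)`-eigenspace of dimension `k ∈ {(d-1)/2, d/2, (d+1)/2}` and a continuous
  `Φ : Sⁿ → GL_d(ℝ)` with `Φ(-y) = w Φ(y)`. Such a `Φ` exists only if `2 ^ φ(n)` divides `k`: this is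
  proved by following the codimension of the range of a path of Dirac operators with potential on
  Gaussian space, from the harmonic oscillator (where it is computed) to an operator that commutes
  with a Clifford algebra (where it is divisible by `2 ^ (φ(n) + 1)`).
-/

namespace Pool.Agent.Results.MP_266556_gt.Complete

open Pool.Agent.Helper86.FlagSphere

/-- `d(1) = 2` and `d(n) = 2 ^ (φ(n) + 1) - 1` for all `n ≥ 2`. -/
theorem result (n : ℕ) (hn : 1 ≤ n) :
    IsLeast {d : ℕ | 2 ≤ d ∧ HasTransverseSphere n d}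
      (if n = 1 then 2 else 2 ^ (rhPhi n + 1) - 1) := by
  by_cases h1 : n = 1
  · subst h1
    rw [if_pos rfl]
    exact ⟨⟨le_rfl, Pool.Agent.Helper64.FlagSphere.hasTransverseSphere_one_two⟩, fun d hd => hd.1⟩
  · rw [if_neg h1]
    have hn2 : 2 ≤ n := by omega
    have hφ : 1 ≤ rhPhi n := by
      unfold rhPhi
      rw [Nat.one_le_iff_ne_zero, Finset.card_ne_zero]
      exact ⟨1, by simp; omega⟩
    have hpow : 2 ^ (rhPhi n + 1) = 2 * 2 ^ rhPhi n := by rw [pow_succ, mul_comm]
    have hpos : 2 ≤ 2 ^ rhPhi n := by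
      calc 2 = 2 ^ 1 := rfl
        _ ≤ 2 ^ rhPhi n := Nat.pow_le_pow_right (by norm_num) hφ
    refine ⟨⟨by omega, ?_⟩, ?_⟩
    · obtain ⟨J, hJ1, hJ2, hJ3⟩ := exists_clifford_matrices n
      rw [hpow]
      exact Pool.Agent.Helper64.FlagSphere.hasTransverseSphere_of_clifford hn (by omega) J hJ1 hJ2 hJ3
    · rintro d ⟨hd, hS⟩
      obtain ⟨w, Φ, k, hws, hw, htr, hdk, hc, hdet, hΦ⟩ :=
        Pool.Agent.Helper4.FlagSphere.exists_equivariant_of_transverseSphere hn2 hd hS
      have hdvd := two_pow_rhPhi_dvd_of_equivariant w Φ hws hw htr hc hdet hΦ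
      have hk : 1 ≤ k := by omega
      have hle := Nat.le_of_dvd hk hdvd
      omega

end Pool.Agent.Results.MP_266556_gt.Complete
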